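import Pool.Agent.P8H14.EX.Stm

/-!
Package CNT of project EX: counting.
-/

set_option autoImplicit false

namespace Pool.Agent.P8H20.EX

open Finset Pool.Agent.P8H14.CF Pool.Agent.P8H14.EX

/-- reciprocity -/
theorem chi_jac1 {A : ℕ} (h : 1 ≤ A) {p : ℕ} (hp : Odd p) :
    jacobiSym (1 - 4 * (A : ℤ)) p = chi A p := by
  have hD : Odd (4 * A - 1) := ⟨2 * A - 1, by omega⟩
  have hD4 : (4 * A - 1) % 4 = 3 := by omega
  have e : (1 - 4 * (A : ℤ)) = - ((4 * A - 1 : ℕ) : ℤ) := by
    rw [Nat.cast_sub (by omega)]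
    push_cast
    ring
  rw [e, jacobiSym.neg _ hp]
  unfold chi
  have hp2 : p % 4 = 1 ∨ p % 4 = 3 := by
    obtain ⟨k, rfl⟩ := hp
    omega
  rcases hp2 with h1 | h3
  · rw [ZMod.χ₄_nat_one_mod_four h1, one_mul, jacobiSym.quadratic_reciprocity_one_mod_four' hD h1]
  · rw [ZMod.χ₄_nat_three_mod_four h3, jacobiSym.quadratic_reciprocity_three_mod_four hD4 h3]
    ring

theorem crt_card {a b : ℕ} (h : a.Coprime b) (ha : 0 < a) (hb : 0 < b) (P Q : ℕ → Prop)
    [DecidablePred P] [DecidablePred Q] (hP : ∀ x, P (x % a) ↔ P x) (hQ : ∀ x, Q (x % b) ↔ Q x) :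
    ((range (a * b)).filter (fun x => P x ∧ Q x)).card =
      ((range a).filter P).card * ((range b).filter Q).card := by
  rw [← Finset.card_product]
  refine Finset.card_bij (fun x _ => (x % a, x % b)) ?_ ?_ ?_
  · intro x hx
    rw [Finset.mem_filter] at hx
    rw [Finset.mem_product, Finset.mem_filter, Finset.mem_filter, Finset.mem_range, Finset.mem_range]
    exact ⟨⟨Nat.mod_lt _ ha, (hP x).2 hx.2.1⟩, ⟨Nat.mod_lt _ hb, (hQ x).2 hx.2.2⟩⟩
  · intro x hx y hy hxy
    rw [Finset.mem_filter, Finset.mem_range] at hx hy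
    rw [Prod.mk.injEq] at hxy
    have h1 : x ≡ y [MOD a * b] := (Nat.modEq_and_modEq_iff_modEq_mul h).1 ⟨hxy.1, hxy.2⟩
    have h2 : x % (a * b) = y % (a * b) := h1
    rwa [Nat.mod_eq_of_lt hx.1, Nat.mod_eq_of_lt hy.1] at h2
  · rintro ⟨r, s⟩ hrs
    rw [Finset.mem_product, Finset.mem_filter, Finset.mem_filter, Finset.mem_range,
      Finset.mem_range] at hrs
    obtain ⟨⟨hr, hPr⟩, ⟨hs, hQs⟩⟩ := hrs
    simp only at hr hPr hs hQs
    obtain ⟨x, hx1, hx2⟩ := Nat.chineseRemainder h r s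
    have hx1' : x % a = r := by
      have : x % a = r % a := hx1
      rwa [Nat.mod_eq_of_lt hr] at this
    have hx2' : x % b = s := by
      have : x % b = s % b := hx2
      rwa [Nat.mod_eq_of_lt hs] at this
    have e1 : x % (a * b) % a = r := by rw [Nat.mod_mul_right_mod, hx1']
    have e2 : x % (a * b) % b = s := by rw [Nat.mod_mul_left_mod, hx2']
    refine ⟨x % (a * b), ?_, ?_⟩
    · rw [Finset.mem_filter, Finset.mem_range]
      refine ⟨Nat.mod_lt _ (Nat.mul_pos ha hb), ?_, ?_⟩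
      · rw [← hP, e1]
        exact hPr
      · rw [← hQ, e2]
        exact hQs
    · rw [e1, e2]

/-- one prime -/
theorem card_one {p : ℕ} (hp : p.Prime) (hp2 : p ≠ 2) (σ : ℤ) (hσ : σ = 1 ∨ σ = -1) :
    ((range p).filter (fun x : ℕ => jacobiSym (-3 - 8 * (x : ℤ)) p = σ)).card = (p - 1) / 2 := by
  have : Fact p.Prime := ⟨hp⟩
  have hcast : ∀ F : ZMod p → ℤ, ∑ x ∈ range p, F (x : ZMod p) = ∑ z : ZMod p, F z := by
    intro F
    refine sum_bij (fun x _ => (x : ZMod p)) (fun _ _ => mem_univ _) ?_ ?_ fun _ _ => rfl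
    · intro a ha b hb hab
      have h1 := congrArg ZMod.val hab
      rwa [ZMod.val_natCast_of_lt (mem_range.1 ha), ZMod.val_natCast_of_lt (mem_range.1 hb)] at h1
    · intro z _
      exact ⟨z.val, mem_range.2 (ZMod.val_lt z), ZMod.natCast_zmod_val z⟩
  have h8 : (8 : ZMod p) ≠ 0 := by
    intro h0
    have h1 : ((8 : ℕ) : ZMod p) = 0 := by exact_mod_cast h0
    rw [ZMod.natCast_eq_zero_iff] at h1
    have h2 : p ∣ 2 ^ 3 := by norm_num; exact h1
    exact hp2 ((Nat.prime_dvd_prime_iff_eq hp Nat.prime_two).1 (hp.dvd_of_dvd_pow h2))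
  have hbij : Function.Bijective (fun z : ZMod p => -3 - 8 * z) := by
    rw [Function.Bijective]
    have hinj : Function.Injective (fun z : ZMod p => -3 - 8 * z) := by
      intro a b hab
      have h1 : (8 : ZMod p) * a = 8 * b := by
        have : -3 - 8 * a = -3 - 8 * b := hab
        linear_combination -this
      exact mul_left_cancel₀ h8 h1
    exact ⟨hinj, Finite.surjective_of_injective hinj⟩
  -- `2 [χ = σ] = χ² + σ χ`
  have h1 : ∀ x : ℕ, (2 : ℤ) * (if jacobiSym (-3 - 8 * (x : ℤ)) p = σ then 1 else 0) =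
      (fun z : ZMod p => quadraticChar (ZMod p) (-3 - 8 * z) ^ 2 +
        σ * quadraticChar (ZMod p) (-3 - 8 * z)) (x : ZMod p) := by
    intro x
    have e1 : jacobiSym (-3 - 8 * (x : ℤ)) p = quadraticChar (ZMod p) (-3 - 8 * (x : ZMod p)) := by
      rw [← jacobiSym.legendreSym.to_jacobiSym, legendreSym]
      push_cast
      rfl
    rw [e1]
    show _ = quadraticChar (ZMod p) (-3 - 8 * (x : ZMod p)) ^ 2 +
        σ * quadraticChar (ZMod p) (-3 - 8 * (x : ZMod p))
    set c := quadraticChar (ZMod p) (-3 - 8 * (x : ZMod p)) with hc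
    have hc3 : c = 0 ∨ c = 1 ∨ c = -1 := by
      by_cases h0 : (-3 - 8 * (x : ZMod p)) = 0
      · left
        rw [hc, h0]
        exact quadraticChar_zero
      · right
        exact quadraticChar_dichotomy h0
    rcases hσ with rfl | rfl <;> rcases hc3 with h | h | h <;> rw [h] <;> norm_num
  have h2 : (2 : ℤ) * ((range p).filter (fun x : ℕ => jacobiSym (-3 - 8 * (x : ℤ)) p = σ)).card =
      (p : ℤ) - 1 := by
    rw [Finset.card_filter]
    push_cast
    rw [Finset.mul_sum, Finset.sum_congr rfl (fun x _ => h1 x)]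
    rw [hcast (fun z : ZMod p => quadraticChar (ZMod p) (-3 - 8 * z) ^ 2 +
        σ * quadraticChar (ZMod p) (-3 - 8 * z))]
    have e1 := hbij.sum_comp (fun z : ZMod p => quadraticChar (ZMod p) z ^ 2 +
        σ * quadraticChar (ZMod p) z)
    rw [e1, Finset.sum_add_distrib, ← Finset.mul_sum,
      quadraticChar_sum_zero (by rwa [ZMod.ringChar_zmod_n]), mul_zero, add_zero]
    have e2 : ∀ z : ZMod p, quadraticChar (ZMod p) z ^ 2 = if z = 0 then 0 else 1 := by
      intro z
      by_cases h0 : z = 0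
      · rw [h0, if_pos rfl, quadraticChar_zero]
        norm_num
      · rw [if_neg h0, quadraticChar_sq_one h0]
    rw [Finset.sum_congr rfl (fun z _ => e2 z)]
    have e3 : ∀ z : ZMod p, (if z = 0 then (0 : ℤ) else 1) = 1 - if z = 0 then 1 else 0 := by
      intro z
      split_ifs <;> norm_num
    rw [Finset.sum_congr rfl (fun z _ => e3 z), Finset.sum_sub_distrib, Finset.sum_ite_eq' univ (0 : ZMod p),
      if_pos (Finset.mem_univ _), Finset.sum_const, Finset.card_univ, ZMod.card]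
    simp
  have hp1 := hp.two_le
  omega

/-- several primes -/
theorem card_many (σ : ℤ) (hσ : σ = 1 ∨ σ = -1) (S : Finset ℕ) (hS : ∀ p ∈ S, p.Prime ∧ p ≠ 2) :
    ((range (∏ p ∈ S, p)).filter (fun x : ℕ => ∀ p ∈ S, jacobiSym (-3 - 8 * (x : ℤ)) p = σ)).card =
      ∏ p ∈ S, (p - 1) / 2 := by
  classical
  induction S using Finset.induction_on with
  | empty => simp
  | insert q S hq ih =>
    have hS' : ∀ p ∈ S, p.Prime ∧ p ≠ 2 := fun p hp => hS p (Finset.mem_insert_of_mem hp)
    have hqp := hS q (Finset.mem_insert_self q S)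
    rw [Finset.prod_insert hq, Finset.prod_insert hq, ← ih hS', ← card_one hqp.1 hqp.2 σ hσ]
    have hcop : q.Coprime (∏ p ∈ S, p) := by
      apply Nat.Coprime.prod_right
      intro p hp
      exact (Nat.coprime_primes hqp.1 (hS' p hp).1).2 (fun h => hq (h ▸ hp))
    have hpos : 0 < ∏ p ∈ S, p := Finset.prod_pos fun p hp => (hS' p hp).1.pos
    rw [← crt_card hcop hqp.1.pos hpos (fun x : ℕ => jacobiSym (-3 - 8 * (x : ℤ)) q = σ)
      (fun x : ℕ => ∀ p ∈ S, jacobiSym (-3 - 8 * (x : ℤ)) p = σ)]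
    · congr 1
      apply Finset.filter_congr
      intro x _
      exact Finset.forall_mem_insert _ _ _
    · intro x
      have : jacobiSym (-3 - 8 * ((x % q : ℕ) : ℤ)) q = jacobiSym (-3 - 8 * (x : ℤ)) q := by
        apply jacobiSym.mod_left'
        have h1 : ((x % q : ℕ) : ℤ) ≡ (x : ℤ) [ZMOD (q : ℤ)] := by
          rw [Int.natCast_mod]
          exact Int.mod_modEq _ _
        exact (Int.ModEq.refl (-3)).sub (h1.mul_left 8)
      rw [this]
    · intro x
      have : ∀ p ∈ S, jacobiSym (-3 - 8 * ((x % (∏ p ∈ S, p) : ℕ) : ℤ)) p =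
          jacobiSym (-3 - 8 * (x : ℤ)) p := by
        intro p hp
        apply jacobiSym.mod_left'
        have hd : (p : ℤ) ∣ ((∏ p ∈ S, p : ℕ) : ℤ) := by
          exact_mod_cast Finset.dvd_prod_of_mem (fun p => p) hp
        have h1 : ((x % (∏ p ∈ S, p) : ℕ) : ℤ) ≡ (x : ℤ) [ZMOD (p : ℤ)] := by
          rw [Int.natCast_mod]
          exact (Int.mod_modEq _ _).of_dvd hd
        exact (Int.ModEq.refl (-3)).sub (h1.mul_left 8)
      constructor
      · intro h p hp
        rw [← this p hp]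
        exact h p hp
      · intro h p hp
        rw [this p hp]
        exact h p hp

/-- the members of one class -/
theorem class_card (u N M r : ℕ) (hM : 0 < M) (hu : u ≤ N) :
    |(((Ioc u N).filter (fun A => A ≡ r [MOD M])).card : ℝ) - ((N : ℝ) - u) / M| ≤ 1 := by
  have h1 := Nat.Ioc_filter_modEq_card u N hM r
  set F : ℤ := ⌊((N : ℚ) - r) / M⌋ with hF
  set F' : ℤ := ⌊((u : ℚ) - r) / M⌋ with hF'
  have hMq : (0 : ℚ) < M := by exact_mod_cast hM
  have hMr : (0 : ℝ) < M := by exact_mod_cast hM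
  have hge : F' ≤ F := by
    apply Int.floor_le_floor
    have h2 : (u : ℚ) ≤ N := by exact_mod_cast hu
    exact div_le_div_of_nonneg_right (by linarith) hMq.le
  rw [max_eq_left (by omega)] at h1
  have h2 : (((Ioc u N).filter (fun A => A ≡ r [MOD M])).card : ℚ) = F - F' := by
    have : (((Ioc u N).filter (fun A => A ≡ r [MOD M])).card : ℤ) = F - F' := h1
    exact_mod_cast this
  have a1 := Int.floor_le (((N : ℚ) - r) / M)
  have a2 := Int.lt_floor_add_one (((N : ℚ) - r) / M)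
  have b1 := Int.floor_le (((u : ℚ) - r) / M)
  have b2 := Int.lt_floor_add_one (((u : ℚ) - r) / M)
  rw [← hF] at a1 a2
  rw [← hF'] at b1 b2
  have h3 : ((N : ℚ) - u) / M = ((N : ℚ) - r) / M - ((u : ℚ) - r) / M := by ring
  have h4 : |(((Ioc u N).filter (fun A => A ≡ r [MOD M])).card : ℚ) - ((N : ℚ) - u) / M| ≤ 1 := by
    rw [h2, h3, abs_le]
    constructor <;> linarith
  set X : ℕ := ((Ioc u N).filter (fun A => A ≡ r [MOD M])).card
  have h5 : |(X : ℝ) - ((N : ℝ) - u) / M| = ((|(X : ℚ) - ((N : ℚ) - u) / M| : ℚ) : ℝ) := by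
    push_cast
    rfl
  rw [h5]
  have h6 : ((|(X : ℚ) - ((N : ℚ) - u) / M| : ℚ) : ℝ) ≤ ((1 : ℚ) : ℝ) := Rat.cast_le.2 h4
  simpa using h6

theorem cnt : S_CNT := by
  intro σ z u N hσ hu
  have hop : ∀ p ∈ op z, p.Prime ∧ p ≠ 2 := by
    intro p hp
    unfold op at hp
    rw [Finset.mem_filter, Finset.mem_Icc] at hp
    exact ⟨hp.2, by omega⟩
  have hodd : ∀ p ∈ op z, Odd p := fun p hp => (hop p hp).1.odd_of_ne_two (hop p hp).2
  have hQ : 0 < PZ z := Finset.prod_pos fun p hp => (hop p hp).1.pos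
  set M := 2 * PZ z with hM
  have hM0 : 0 < M := by omega
  set P : ℕ → Prop := fun A => Odd A ∧ ∀ p ∈ op z, jacobiSym (1 - 4 * (A : ℤ)) p = σ with hP
  have hdec : DecidablePred P := fun A => by rw [hP]; infer_instance
  have hAS : AS σ z u N = (Ioc u N).filter P := by
    unfold AS
    apply Finset.filter_congr
    intro A _
    rw [hP]
    constructor
    · rintro ⟨h1, h2⟩
      refine ⟨h1, fun p hp => ?_⟩
      rw [chi_jac1 h1.pos (hodd p hp)]
      exact h2 p hp
    · rintro ⟨h1, h2⟩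
      refine ⟨h1, fun p hp => ?_⟩
      rw [← chi_jac1 h1.pos (hodd p hp)]
      exact h2 p hp
  have hper : ∀ A B : ℕ, A ≡ B [MOD M] → P A → P B := by
    rintro A B hAB ⟨h1, h2⟩
    refine ⟨?_, fun p hp => ?_⟩
    · have h3 : A ≡ B [MOD 2] := hAB.of_dvd ⟨PZ z, hM⟩
      have h4 : A % 2 = B % 2 := h3
      rw [Nat.odd_iff] at h1 ⊢
      omega
    · rw [← h2 p hp]
      apply jacobiSym.mod_left'
      have hd : p ∣ M := by
        rw [hM]
        exact Dvd.dvd.mul_left (Finset.dvd_prod_of_mem (fun p => p) hp) 2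
      have h3 : (A : ℤ) ≡ (B : ℤ) [ZMOD (p : ℤ)] := by
        rw [Int.natCast_modEq_iff]
        exact hAB.of_dvd hd
      exact (Int.ModEq.refl 1).sub (h3.symm.mul_left 4)
  set R : Finset ℕ := (range M).filter P with hR
  have hRc : R.card = KZ z := by
    have h1 := card_many σ hσ (op z) hop
    unfold KZ
    rw [← h1]
    symm
    refine Finset.card_bij (fun x _ => 2 * x + 1) ?_ ?_ ?_
    · intro x hx
      rw [Finset.mem_filter, Finset.mem_range] at hx
      rw [hR, Finset.mem_filter, Finset.mem_range]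
      refine ⟨?_, ⟨x, rfl⟩, fun p hp => ?_⟩
      · have : x < PZ z := hx.1
        omega
      · rw [← hx.2 p hp]
        congr 1
        push_cast
        ring
    · intro x _ y _ hxy
      omega
    · intro A hA
      rw [hR, Finset.mem_filter, Finset.mem_range] at hA
      obtain ⟨hA1, ⟨x, hx⟩, hA2⟩ := hA
      refine ⟨x, ?_, hx.symm⟩
      rw [Finset.mem_filter, Finset.mem_range]
      refine ⟨?_, fun p hp => ?_⟩
      · have : x < PZ z := by omega
        exact this
      · rw [← hA2 p hp, hx]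
        congr 1
        push_cast
        ring
  have hsum : (AS σ z u N).card = ∑ r ∈ R, ((Ioc u N).filter (fun A => A ≡ r [MOD M])).card := by
    rw [hAS, Finset.card_eq_sum_card_fiberwise (f := fun A => A % M) (t := R)]
    · refine Finset.sum_congr rfl fun r hr => ?_
      congr 1
      ext A
      rw [hR, Finset.mem_filter, Finset.mem_range] at hr
      rw [Finset.mem_filter, Finset.mem_filter, Finset.mem_filter]
      constructor
      · rintro ⟨⟨h1, _⟩, h3⟩
        refine ⟨h1, ?_⟩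
        show A % M = r % M
        rw [h3, Nat.mod_eq_of_lt hr.1]
      · rintro ⟨h1, h2⟩
        refine ⟨⟨h1, hper r A h2.symm hr.2⟩, ?_⟩
        have h3 : A % M = r % M := h2
        rwa [Nat.mod_eq_of_lt hr.1] at h3
    · intro A hA
      rw [Finset.mem_coe, Finset.mem_filter] at hA
      rw [hR, Finset.mem_coe, Finset.mem_filter, Finset.mem_range]
      exact ⟨Nat.mod_lt _ hM0, hper A (A % M) (Nat.mod_modEq A M).symm hA.2⟩
  have hfin : ((AS σ z u N).card : ℝ) - KZ z * ((N : ℝ) - u) / (2 * PZ z) =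
      ∑ r ∈ R, ((((Ioc u N).filter (fun A => A ≡ r [MOD M])).card : ℝ) - ((N : ℝ) - u) / M) := by
    rw [hsum, Finset.sum_sub_distrib, Finset.sum_const, nsmul_eq_mul, hRc, hM]
    push_cast
    ring
  rw [hfin, ← hRc]
  calc |∑ r ∈ R, ((((Ioc u N).filter (fun A => A ≡ r [MOD M])).card : ℝ) - ((N : ℝ) - u) / M)| ≤
      ∑ r ∈ R, |(((Ioc u N).filter (fun A => A ≡ r [MOD M])).card : ℝ) - ((N : ℝ) - u) / M| :=
        Finset.abs_sum_le_sum_abs _ _
    _ ≤ ∑ r ∈ R, (1 : ℝ) := Finset.sum_le_sum fun r _ => class_card u N M r hM0 hu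
    _ = R.card := by simp

end Pool.Agent.P8H20.EX
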